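import Pool.Agent.Y5.V.Stm

/-! Project VL, job UB2: uniform bounds for the truncated systems. -/

set_option autoImplicit false

namespace Pool.Agent.Y312.VL.UB2

open Set Filter Topology
open Pool.Agent.Y6.M (Z3 C3 Coef dt kc cj nsq len adv leray IsField energy)
open Pool.Agent.Y5.V

lemma len_nonneg (k : Z3) : 0 ≤ len k := Real.sqrt_nonneg _

lemma nsq_nonneg (k : Z3) : 0 ≤ nsq k := Finset.sum_nonneg fun _ _ => sq_nonneg _

lemma one_le_len {k : Z3} (hk : k ≠ 0) : 1 ≤ len k := by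
  have h : 1 ≤ nsq k := by
    rcases (nsq_nonneg k).lt_or_eq with h | h
    · omega
    · exfalso
      apply hk
      funext j
      have h1 : ∑ j, k j ^ 2 = 0 := h.symm
      have := (Finset.sum_eq_zero_iff_of_nonneg (fun j _ => sq_nonneg (k j))).1 h1 j
        (Finset.mem_univ j)
      simpa using this
  unfold len
  rw [Real.one_le_sqrt]
  exact_mod_cast h

lemma fin_ball (R : ℕ) : {k : Z3 | nsq k ≤ R}.Finite := by
  apply Set.Finite.subset (Set.finite_Icc (fun _ : Fin 3 => -(R:ℤ)) (fun _ => (R:ℤ)))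
  intro k hk
  have h1 : ∀ j, |k j| ≤ R := fun j => by
    have h2 : k j ^ 2 ≤ nsq k :=
      Finset.single_le_sum (f := fun j => k j ^ 2) (fun _ _ => sq_nonneg _) (Finset.mem_univ j)
    exact (Int.le_self_sq |k j|).trans ((_root_.sq_abs (k j)).le.trans (h2.trans hk))
  exact ⟨fun j => (abs_le.1 (h1 j)).1, fun j => (abs_le.1 (h1 j)).2⟩

lemma sq_nonneg' (a : C3) : 0 ≤ Y5.V.sq a := Finset.sum_nonneg fun _ _ => _root_.sq_nonneg _

lemma sq_zero : Y5.V.sq (0 : C3) = 0 := by simp [Y5.V.sq]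

lemma nm_sq (a : C3) : nm a ^ 2 = Y5.V.sq a := Real.sq_sqrt (sq_nonneg' a)

lemma nm_zero : nm (0 : C3) = 0 := by simp [nm, Y5.V.sq]

section
variable {R : ℕ} {V : Coef} (h : ∀ k, (R : ℤ) < nsq k → V k = 0)

include h in
lemma off_mem (k : Z3) (hk : k ∉ (fin_ball R).toFinset) : V k = 0 := by
  apply h
  by_contra hc
  exact hk ((Set.Finite.mem_toFinset _).2 (not_lt.1 hc))

include h in
lemma hE_eq (m : ℕ) : hE m V = ∑ k ∈ (fin_ball R).toFinset, len k ^ (2 * m) * Y5.V.sq (V k) :=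
  tsum_eq_sum fun k hk => by rw [off_mem h k hk, sq_zero, mul_zero]

include h in
lemma hE_summable (m : ℕ) : Summable fun k => len k ^ (2 * m) * Y5.V.sq (V k) :=
  summable_of_ne_finset_zero (s := (fin_ball R).toFinset)
    fun k hk => by rw [off_mem h k hk, sq_zero, mul_zero]

include h in
lemma hN_eq : hN V = ∑ k ∈ (fin_ball R).toFinset, len k * nm (V k) :=
  tsum_eq_sum fun k hk => by rw [off_mem h k hk, nm_zero, mul_zero]

lemma hE_nonneg (m : ℕ) (V : Coef) : 0 ≤ hE m V :=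
  tsum_nonneg fun k => mul_nonneg (pow_nonneg (len_nonneg k) _) (sq_nonneg' _)

include h in
lemma hN_le (hS : S_SUM) (h0 : V 0 = 0) :
    hN V ≤ √(∑' k : Z3, if k = 0 then (0 : ℝ) else (len k ^ 4)⁻¹) * √(hE 3 V) := by
  rw [← Real.sqrt_mul' _ (hE_nonneg 3 V)]
  apply Real.le_sqrt_of_sq_le
  rw [hN_eq h, hE_eq h]
  set s := (fin_ball R).toFinset
  have e1 : ∑ k ∈ s, len k * nm (V k) =
      ∑ k ∈ s, (if k = 0 then (0 : ℝ) else (len k ^ 2)⁻¹) * (len k ^ 3 * nm (V k)) := by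
    refine Finset.sum_congr rfl fun k _ => ?_
    by_cases hk : k = 0
    · subst hk
      rw [h0, nm_zero]
      simp
    · rw [if_neg hk]
      have := one_le_len hk
      have : len k ≠ 0 := by positivity
      field_simp
  rw [e1]
  refine (Finset.sum_mul_sq_le_sq_mul_sq _ _ _).trans ?_
  refine mul_le_mul ?_ (le_of_eq ?_) (Finset.sum_nonneg fun _ _ => _root_.sq_nonneg _)
    (tsum_nonneg fun k => ?_)
  · have e2 : ∑ k ∈ s, (if k = 0 then (0 : ℝ) else (len k ^ 2)⁻¹) ^ 2 =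
        ∑ k ∈ s, if k = 0 then (0 : ℝ) else (len k ^ 4)⁻¹ := by
      refine Finset.sum_congr rfl fun k _ => ?_
      split_ifs
      · simp
      · rw [inv_pow, ← pow_mul]
    rw [e2]
    refine Summable.sum_le_tsum s (fun k _ => ?_) hS
    split_ifs
    · exact le_rfl
    · exact inv_nonneg.2 (pow_nonneg (len_nonneg k) _)
  · refine Finset.sum_congr rfl fun k _ => ?_
    rw [mul_pow, nm_sq, ← pow_mul]
  · split_ifs
    · exact le_rfl
    · exact inv_nonneg.2 (pow_nonneg (len_nonneg k) _)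

end

/-- comparison of a function with a differential inequality with a strict supersolution -/
lemma compare {δ : ℝ} {y : ℝ → ℝ} {F : ℝ → ℝ} (hy : ∀ t ∈ Icc 0 δ, ∃ D : ℝ,
    HasDerivWithinAt y D (Icc 0 δ) t ∧ D ≤ F t) {b b' : ℝ → ℝ} (h0 : y 0 ≤ b 0)
    (hb : ∀ t, HasDerivAt b (b' t) t) (hF : ∀ t ∈ Ico 0 δ, y t = b t → F t < b' t) :
    ∀ t ∈ Icc 0 δ, y t ≤ b t := by
  choose! D hD using hy
  refine image_le_of_deriv_right_lt_deriv_boundary (f' := D)
    (fun t ht => (hD t ht).1.continuousWithinAt) ?_ h0 hb ?_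
  · intro t ht
    refine (hD t ⟨ht.1, ht.2.le⟩).1.mono_of_mem_nhdsWithin ?_
    exact mem_of_superset (Icc_mem_nhdsGE ht.2) (Icc_subset_Icc_left ht.1)
  · intro t ht hyt
    exact (hD t ⟨ht.1, ht.2.le⟩).2.trans_lt (hF t ht hyt)

lemma hE_field_summable (hS : S_SUM) {V : Coef} (hV : IsField V) (m : ℕ) :
    Summable fun k => len k ^ (2 * m) * Y5.V.sq (V k) := by
  obtain ⟨M, hM⟩ := hV.smooth (m + 2)
  refine Summable.of_nonneg_of_le
    (fun k => mul_nonneg (pow_nonneg (len_nonneg k) _) (sq_nonneg' _)) (fun k => ?_)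
    (hS.mul_left (3 * M ^ 2))
  by_cases hk : k = 0
  · subst hk
    rw [hV.zero, sq_zero]
    simp
  · rw [if_neg hk]
    have h1 := one_le_len hk
    have h2 : 0 < len k := by linarith
    rw [← div_eq_mul_inv, le_div_iff₀ (by positivity)]
    have h3 : ∀ j, (len k ^ (m + 2) * ‖V k j‖) ^ 2 ≤ M ^ 2 := fun j =>
      pow_le_pow_left₀ (by positivity) (hM k j) 2
    have h4 : len k ^ (2 * m) * Y5.V.sq (V k) * len k ^ 4 = ∑ j, (len k ^ (m + 2) * ‖V k j‖) ^ 2 := by
      unfold Y5.V.sq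
      rw [Finset.mul_sum, Finset.sum_mul]
      refine Finset.sum_congr rfl fun j _ => ?_
      ring
    rw [h4]
    refine (Finset.sum_le_sum fun j _ => h3 j).trans ?_
    simp

theorem t_UB : S_UB := by
  intro hS hUB1 B
  obtain ⟨S, hSdef⟩ : ∃ S : ℝ, S = √(∑' k : Z3, if k = 0 then (0 : ℝ) else (len k ^ 4)⁻¹) := ⟨_, rfl⟩
  have hS0 : 0 ≤ S := hSdef ▸ Real.sqrt_nonneg _
  obtain ⟨C, hC0, hC⟩ := hUB1 3
  obtain ⟨b, hb⟩ : ∃ b : ℝ, b = |B| + 1 := ⟨_, rfl⟩
  have hb0 : 0 < b := by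
    have := abs_nonneg B
    linarith
  obtain ⟨H, hH⟩ : ∃ H : ℝ, H = S * √(2 * b) := ⟨_, rfl⟩
  have hH0 : 0 ≤ H := by
    rw [hH]
    positivity
  obtain ⟨δ, hδ⟩ : ∃ δ : ℝ, δ = (2 * (C * H) + 1)⁻¹ := ⟨_, rfl⟩
  have hCH : 0 ≤ C * H := mul_nonneg hC0 hH0
  have hδ0 : 0 < δ := by
    rw [hδ]
    positivity
  refine ⟨δ, hδ0, fun V0 hV0 hB q => ?_⟩
  obtain ⟨Cq, hCq0, hCq⟩ := hUB1 q
  refine ⟨√((hE q V0 + 1) * Real.exp ((Cq * H + 1) * δ)), fun d R Z hd hZ t ht k j => ?_⟩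
  -- the initial values
  have hinit : ∀ m, hE m (Z 0) ≤ hE m V0 := by
    intro m
    refine (hE_summable (fun k hk => hZ.off k hk 0) m).tsum_le_tsum (fun k => ?_)
      (hE_field_summable hS hV0 m)
    by_cases hk : nsq k ≤ R
    · rw [hZ.init k hk]
    · rw [hZ.off k (not_le.1 hk) 0, sq_zero, mul_zero]
      exact mul_nonneg (pow_nonneg (len_nonneg k) _) (sq_nonneg' _)
  have hNle : ∀ s, hN (Z s) ≤ S * √(hE 3 (Z s)) := by
    intro s
    rw [hSdef]
    exact hN_le (fun k hk => hZ.off k hk s) hS (hZ.zero s)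
  -- the norm of order three
  have h3 : ∀ s ∈ Icc 0 δ, hE 3 (Z s) ≤ b * (1 + s / δ) := by
    refine compare (y := fun s => hE 3 (Z s)) (b := fun s => b * (1 + s / δ))
      (b' := fun _ => b * (1 / δ)) (hC d R δ V0 Z hd hZ) ?_ ?_ ?_
    · have h4 := (hinit 3).trans hB
      have h5 := le_abs_self B
      simp only [zero_div, add_zero, mul_one]
      linarith
    · intro s
      exact (((hasDerivAt_id s).div_const δ).const_add 1).const_mul b
    · intro s hs hys
      have hys' : hE 3 (Z s) = b * (1 + s / δ) := hys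
      have h6 : s / δ ≤ 1 := (div_le_one hδ0).2 hs.2.le
      have h7 : hE 3 (Z s) ≤ 2 * b := by
        rw [hys']
        nlinarith
      have h8 : hN (Z s) ≤ H := by
        rw [hH]
        refine (hNle s).trans ?_
        gcongr
      have h9 : C * hN (Z s) * hE 3 (Z s) ≤ C * H * (2 * b) := by
        have := hE_nonneg 3 (Z s)
        have h10 : C * hN (Z s) ≤ C * H := mul_le_mul_of_nonneg_left h8 hC0
        exact mul_le_mul h10 h7 this hCH
      refine h9.trans_lt ?_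
      rw [hδ, one_div, inv_inv]
      nlinarith
  have hHb : ∀ s ∈ Icc 0 δ, hN (Z s) ≤ H := by
    intro s hs
    have h6 : s / δ ≤ 1 := (div_le_one hδ0).2 hs.2
    have h7 : hE 3 (Z s) ≤ 2 * b := by
      refine (h3 s hs).trans ?_
      nlinarith
    rw [hH]
    refine (hNle s).trans ?_
    gcongr
  -- the norm of order q
  have hq : ∀ s ∈ Icc 0 δ, hE q (Z s) ≤ (hE q V0 + 1) * Real.exp ((Cq * H + 1) * s) := by
    have hpos : 0 < hE q V0 + 1 := by
      have := hE_nonneg q V0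
      linarith
    refine compare (y := fun s => hE q (Z s))
      (b := fun s => (hE q V0 + 1) * Real.exp ((Cq * H + 1) * s))
      (b' := fun s => (hE q V0 + 1) * (Real.exp ((Cq * H + 1) * s) * (Cq * H + 1)))
      (hCq d R δ V0 Z hd hZ) ?_ ?_ ?_
    · simp only [mul_zero, Real.exp_zero, mul_one]
      linarith [hinit q]
    · intro s
      have h10 : HasDerivAt (fun s : ℝ => (Cq * H + 1) * s) (Cq * H + 1) s := by
        simpa using (hasDerivAt_id s).const_mul (Cq * H + 1)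
      exact (h10.exp).const_mul _
    · intro s hs hys
      have hys' : hE q (Z s) = (hE q V0 + 1) * Real.exp ((Cq * H + 1) * s) := hys
      have h11 : Cq * hN (Z s) * hE q (Z s) ≤ Cq * H * hE q (Z s) := by
        have := hHb s ⟨hs.1, hs.2.le⟩
        have := hE_nonneg q (Z s)
        gcongr
      refine h11.trans_lt ?_
      rw [hys']
      have h12 : 0 < (hE q V0 + 1) * Real.exp ((Cq * H + 1) * s) :=
        mul_pos hpos (Real.exp_pos _)
      nlinarith
  -- the coefficients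
  apply Real.le_sqrt_of_sq_le
  have h13 : hE q (Z t) ≤ (hE q V0 + 1) * Real.exp ((Cq * H + 1) * δ) := by
    refine (hq t ht).trans ?_
    have hpos : 0 ≤ hE q V0 + 1 := by
      have := hE_nonneg q V0
      linarith
    have h14 : 0 ≤ Cq * H + 1 := by positivity
    have := ht.2
    gcongr
  refine le_trans ?_ h13
  have h15 : (len k ^ q * ‖Z t k j‖) ^ 2 ≤ len k ^ (2 * q) * Y5.V.sq (Z t k) := by
    have h16 : ‖Z t k j‖ ^ 2 ≤ Y5.V.sq (Z t k) :=
      Finset.single_le_sum (f := fun j => ‖Z t k j‖ ^ 2) (fun _ _ => _root_.sq_nonneg _)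
        (Finset.mem_univ j)
    have h17 : (len k ^ q * ‖Z t k j‖) ^ 2 = len k ^ (2 * q) * ‖Z t k j‖ ^ 2 := by ring
    rw [h17]
    exact mul_le_mul_of_nonneg_left h16 (pow_nonneg (len_nonneg k) _)
  refine h15.trans ?_
  exact (hE_summable (fun k hk => hZ.off k hk t) q).le_tsum k
    (fun k _ => mul_nonneg (pow_nonneg (len_nonneg k) _) (sq_nonneg' _))

end Pool.Agent.Y312.VL.UB2
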